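import Pool.Agent.H66.GX5.ClsDefs
import Pool.Agent.H36.GY.Cls

/-!
# Group rings of the groups in the class `GrClass`
-/

set_option autoImplicit false

namespace Pool.Agent.H66.GX5

open Pool.Agent.H66.NCL Pool.Agent.H36.OX Pool.Agent.H36.GX Pool.Agent.H36

universe u

theorem GrClass.toGY {G : Type u} [Group G] (h : GrClass G) : GY.GrClass G := by
  induction h with
  | solv G h => exact GY.GrClass.solv G h
  | sub G H f hf _ ih => exact GY.GrClass.sub G H f hf ih
  | fin G H _ ih => exact GY.GrClass.fin G H ih
  | prod V E G _ ih => exact GY.GrClass.prod V E G ih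
  | wr G N Y φ hφ _ hN ih =>
    have h1 : φ = GY.shiftAut G N Y := by
      refine MonoidHom.ext fun n => MulEquiv.ext fun x => ?_
      have h2 : (φ n).toMonoidHom = (GY.shiftAut G N Y n).toMonoidHom := by
        refine Monoid.CoprodI.ext_hom _ _ fun y => MonoidHom.ext fun g => ?_
        show φ n (Monoid.CoprodI.of g) = GY.shift G n (Monoid.CoprodI.of g)
        rw [hφ, GY.shift_of]
      exact DFunLike.congr_fun h2 x
    subst h1
    exact GY.GrClass.wr G N Y ih hN
  | union G J K hdir htop _ ih => exact GY.GrClass.union G J K hdir htop ih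

/-- **Matrix groups over monoid algebras of submonoids of groups in the class `GrClass`.** -/
theorem P_class {A : Type u} [Ring A] (hA : (∀ x y : A, x * y = y * x) ∨ OreTower A)
    (S Γ : Type u) [Monoid S] [Group Γ] (ι : S →* Γ) (hι : Function.Injective ι)
    (hΓ : GrClass Γ) : P.{u, u} (MonoidAlgebra A S) :=
  GY.P_class hA S Γ ι hι hΓ.toGY

end Pool.Agent.H66.GX5
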