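import Pool.Agent.H36.GX.Defs

/-!
# The class of groups of `GroupRingMatrices`. Definition
-/

set_option autoImplicit false

namespace Pool.Agent.H66.GX5

open Pool.Agent.H36.OX Pool.Agent.H36.GX

universe u

/-- The smallest class of groups which contains the groups in `SolvTF` and is closed under
(sub) subgroups, (fin) overgroups of finite index, (prod) graph products over finite graphs (for example
free products and direct products), (wr) free wreath products: semidirect products `(*_Y G) ⋊ N` of a
free product of copies of `G`, indexed by a set `Y`, with a group `N` in `SolvTF` which acts on `Y` and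
permutes the copies, (union) directed unions. -/
inductive GrClass : (G : Type u) → [Group G] → Prop
  | solv (G : Type u) [Group G] (h : SolvTF G) : GrClass G
  | sub (G H : Type u) [Group G] [Group H] (f : G →* H) (hf : Function.Injective f)
      (h : GrClass H) : GrClass G
  | fin (G : Type u) [Group G] (H : Subgroup G) [H.FiniteIndex] (h : GrClass H) : GrClass G
  | prod (V : Type u) [Finite V] (E : SimpleGraph V) (G : V → Type u) [∀ v, Group (G v)]
      (h : ∀ v, GrClass (G v)) : GrClass (GraphProduct E G)
  | wr (G N Y : Type u) [Group G] [Group N] [MulAction N Y]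
      (φ : N →* MulAut (Monoid.CoprodI fun _ : Y => G))
      (hφ : ∀ (n : N) (y : Y) (g : G), φ n (Monoid.CoprodI.of (M := fun _ : Y => G) (i := y) g) =
        Monoid.CoprodI.of (M := fun _ : Y => G) (i := n • y) g)
      (hG : GrClass G) (hN : SolvTF N) : GrClass ((Monoid.CoprodI fun _ : Y => G) ⋊[φ] N)
  | union (G : Type u) [Group G] (J : Type u) [Nonempty J] (K : J → Subgroup G)
      (hdir : Directed (· ≤ ·) K) (htop : ∀ x, ∃ j, x ∈ K j) (h : ∀ j, GrClass (K j)) : GrClass G

end Pool.Agent.H66.GX5
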