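import Pool.Agent.H66.GX5.RingDefs
import Pool.Agent.H66.GX5.Cls
import Pool.Agent.H36.GZ.Main

/-!
# Matrix groups over the rings in the class `RingClass`
-/

set_option autoImplicit false

namespace Pool.Agent.H66.GX5

open Pool.Agent.H66.NCL Pool.Agent.H36.OX Pool.Agent.H36.GX Pool.Agent.H36

universe u

/-- all monoid algebras of submonoids of groups in `GrClass` -/
private def PAll (A : Type u) [Ring A] : Prop :=
  ∀ (S Γ : Type u) [Monoid S] [Group Γ] (ι : S →* Γ), Function.Injective ι → GrClass Γ →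
    P.{u, u} (MonoidAlgebra A S)

private theorem map_inj {A B S : Type u} [Ring A] [Ring B] [Monoid S] (f : A →+* B)
    (hf : Function.Injective f) : Function.Injective (MonoidAlgebra.mapRingHom S f) := by
  intro x y h
  apply MonoidAlgebra.coeff_injective
  refine Finsupp.ext fun s => hf ?_
  rw [← MonoidAlgebra.coeff_mapRingHom, ← MonoidAlgebra.coeff_mapRingHom, h]

/-- two types as a family -/
private def Two (X Y : Type u) : ULift.{u} Bool → Type u
  | ⟨true⟩ => X
  | ⟨false⟩ => Y

private instance (X Y : Type u) [Group X] [Group Y] : ∀ v, Group (Two X Y v)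
  | ⟨true⟩ => (inferInstance : Group X)
  | ⟨false⟩ => (inferInstance : Group Y)

private instance (X Y : Type u) [Ring X] [Ring Y] : ∀ v, Ring (Two X Y v)
  | ⟨true⟩ => (inferInstance : Ring X)
  | ⟨false⟩ => (inferInstance : Ring Y)

private theorem GrClass.prod2 {X Y : Type u} [Group X] [Group Y] (hX : GrClass X)
    (hY : GrClass Y) : GrClass (X × Y) := by
  obtain ⟨f, hf⟩ := exists_pi_gp (Two X Y)
  let g : X × Y →* ∀ v, Two X Y v :=
    { toFun := fun p v => match v with
        | ⟨true⟩ => p.1
        | ⟨false⟩ => p.2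
      map_one' := by
        funext v
        match v with
        | ⟨true⟩ => rfl
        | ⟨false⟩ => rfl
      map_mul' := by
        intro p q
        funext v
        match v with
        | ⟨true⟩ => rfl
        | ⟨false⟩ => rfl }
  refine GrClass.sub (X × Y) (GraphProduct ⊤ (Two X Y)) (f.comp g) (hf.comp ?_)
    (GrClass.prod _ _ _ fun v => ?_)
  · intro p q h
    exact Prod.ext (congrFun h ⟨true⟩) (congrFun h ⟨false⟩)
  · match v with
    | ⟨true⟩ => exact hX
    | ⟨false⟩ => exact hY

private theorem PAll.alg {A S Γ : Type u} [Ring A] [Monoid S] [Group Γ] (ι : S →* Γ)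
    (hι : Function.Injective ι) (hΓ : GrClass Γ) (h : PAll A) : PAll (MonoidAlgebra A S) := by
  classical
  intro S' Γ' _ _ ι' hι' hΓ'
  have h1 : P.{u, u} (MonoidAlgebra A (S' × S)) :=
    h (S' × S) (Γ' × Γ) (ι'.prodMap ι) (hι'.prodMap hι) (hΓ'.prod2 hΓ)
  exact P.of_injective (MonoidAlgebra.curryRingEquiv (R := A) (M := S') (N := S)).symm.toRingHom
    (MonoidAlgebra.curryRingEquiv (R := A) (M := S') (N := S)).symm.injective h1

private theorem PAll.mat {A : Type u} [Ring A] (m : ℕ) (h : PAll A) :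
    PAll (Matrix (Fin m) (Fin m) A) := by
  classical
  intro S Γ _ _ ι hι hΓ
  let sc : Matrix (Fin m) (Fin m) A →+* Matrix (Fin m) (Fin m) (MonoidAlgebra A S) :=
    (MonoidAlgebra.singleOneRingHom : A →+* MonoidAlgebra A S).mapMatrix
  let mo : S →* Matrix (Fin m) (Fin m) (MonoidAlgebra A S) :=
    (Matrix.scalar (Fin m)).toMonoidHom.comp (MonoidAlgebra.of A S)
  have hcomm : ∀ c s, Commute (sc c) (mo s) := by
    intro c s
    refine Matrix.ext fun a b => ?_
    show (sc c * Matrix.scalar (Fin m) (MonoidAlgebra.of A S s)) a b =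
      (Matrix.scalar (Fin m) (MonoidAlgebra.of A S s) * sc c) a b
    rw [Matrix.scalar_apply, Matrix.diagonal_mul, Matrix.mul_diagonal]
    show MonoidAlgebra.single 1 (c a b) * MonoidAlgebra.single s 1 =
      MonoidAlgebra.single s 1 * MonoidAlgebra.single 1 (c a b)
    rw [MonoidAlgebra.single_mul_single, MonoidAlgebra.single_mul_single, one_mul, mul_one, mul_one,
      one_mul]
  let Ψ : MonoidAlgebra (Matrix (Fin m) (Fin m) A) S →+*
      Matrix (Fin m) (Fin m) (MonoidAlgebra A S) := MonoidAlgebra.liftNCRingHom sc mo hcomm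
  have hΨ : ∀ (x : MonoidAlgebra (Matrix (Fin m) (Fin m) A) S) (a b : Fin m) (s : S),
      (Ψ x a b).coeff s = x.coeff s a b := by
    intro x a b s
    induction x using MonoidAlgebra.induction_linear with
    | zero => simp
    | add x y hx hy =>
      rw [map_add, Matrix.add_apply, MonoidAlgebra.coeff_add, Finsupp.add_apply, hx, hy,
        MonoidAlgebra.coeff_add, Finsupp.add_apply, Matrix.add_apply]
    | single t c =>
      have h1 : Ψ (MonoidAlgebra.single t c) = sc c * mo t :=
        MonoidAlgebra.liftNCRingHom_single _ _ _ _ _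
      have h2 : (sc c * mo t) a b = MonoidAlgebra.single t (c a b) := by
        show (sc c * Matrix.scalar (Fin m) (MonoidAlgebra.of A S t)) a b = _
        rw [Matrix.scalar_apply, Matrix.mul_diagonal]
        show MonoidAlgebra.single 1 (c a b) * MonoidAlgebra.single t 1 = _
        rw [MonoidAlgebra.single_mul_single, one_mul, mul_one]
      rw [h1, h2, MonoidAlgebra.coeff_single, MonoidAlgebra.coeff_single, Finsupp.single_apply,
        Finsupp.single_apply]
      split_ifs
      · rfl
      · rfl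
  refine P.of_injective Ψ ?_ (P.matrix (h S Γ ι hι hΓ) (Fin m))
  intro x y hxy
  apply MonoidAlgebra.coeff_injective
  refine Finsupp.ext fun s => Matrix.ext fun a b => ?_
  rw [← hΨ, ← hΨ, hxy]

private theorem PAll.prod {A B : Type u} [Ring A] [Ring B] (h : PAll A) (h' : PAll B) :
    PAll (A × B) := by
  intro S Γ _ _ ι hι hΓ
  let f : MonoidAlgebra (A × B) S →+* ∀ v, Two (MonoidAlgebra A S) (MonoidAlgebra B S) v :=
    RingHom.pi fun v => match v with
      | ⟨true⟩ => MonoidAlgebra.mapRingHom S (RingHom.fst A B)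
      | ⟨false⟩ => MonoidAlgebra.mapRingHom S (RingHom.snd A B)
  have hf : Function.Injective f := by
    intro x y hxy
    have h1 : MonoidAlgebra.mapRingHom S (RingHom.fst A B) x =
      MonoidAlgebra.mapRingHom S (RingHom.fst A B) y := congrFun hxy ⟨true⟩
    have h2 : MonoidAlgebra.mapRingHom S (RingHom.snd A B) x =
      MonoidAlgebra.mapRingHom S (RingHom.snd A B) y := congrFun hxy ⟨false⟩
    apply MonoidAlgebra.coeff_injective
    refine Finsupp.ext fun s => Prod.ext ?_ ?_
    · have h3 := congrArg (fun z => z.coeff s) h1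
      simp only [MonoidAlgebra.coeff_mapRingHom] at h3
      exact h3
    · have h3 := congrArg (fun z => z.coeff s) h2
      simp only [MonoidAlgebra.coeff_mapRingHom] at h3
      exact h3
  refine P.of_injective f hf (P.pi fun v => ?_)
  match v with
  | ⟨true⟩ => exact h S Γ ι hι hΓ
  | ⟨false⟩ => exact h' S Γ ι hι hΓ

private theorem PAll.sqz {A B : Type u} [Ring A] [Ring B] (f : A →+* B)
    (hf : ∀ x y, f x = 0 → f y = 0 → x * y = 0) (h : PAll B) : PAll A := by
  intro S Γ _ _ ι hι hΓ
  refine P.sqZero (MonoidAlgebra.mapRingHom S f) ?_ (h S Γ ι hι hΓ)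
  intro x y hx hy
  rw [MonoidAlgebra.mul_def, Finsupp.sum]
  refine Finset.sum_eq_zero fun s _ => ?_
  rw [Finsupp.sum]
  refine Finset.sum_eq_zero fun t _ => ?_
  rw [hf, MonoidAlgebra.single_zero]
  · rw [← MonoidAlgebra.coeff_mapRingHom, hx]
    rfl
  · rw [← MonoidAlgebra.coeff_mapRingHom, hy]
    rfl

private theorem PAll.union {A : Type u} [Ring A] {J : Type u} [Nonempty J] (B : J → Subring A)
    (hdir : Directed (· ≤ ·) B) (htop : ∀ x, ∃ j, x ∈ B j) (h : ∀ j, PAll (B j)) : PAll A := by
  classical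
  intro S Γ _ _ ι hι hΓ
  apply P.of_finset
  intro C
  let co : Finset A := C.biUnion fun x => x.coeff.support.image x.coeff
  choose j hj using htop
  obtain ⟨l, hl⟩ := hdir.finset_le (co.image j)
  have hco : ∀ a ∈ co, a ∈ B l := fun a ha => hl (j a) (Finset.mem_image_of_mem _ ha) (hj a)
  refine ⟨MonoidAlgebra (B l) S, inferInstance, MonoidAlgebra.mapRingHom S (B l).subtype,
    map_inj _ Subtype.val_injective, ?_, h l S Γ ι hι hΓ⟩
  intro x hx
  have hmem : ∀ s, x.coeff s ∈ B l := by
    intro s
    by_cases hs : x.coeff s = 0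
    · rw [hs]; exact (B l).zero_mem
    · refine hco _ ?_
      rw [Finset.mem_biUnion]
      exact ⟨x, hx, Finset.mem_image_of_mem _ (Finsupp.mem_support_iff.2 hs)⟩
  refine ⟨∑ s ∈ x.coeff.support, MonoidAlgebra.single s (⟨x.coeff s, hmem s⟩ : B l), ?_⟩
  rw [map_sum]
  apply MonoidAlgebra.ext
  rw [MonoidAlgebra.coeff_sum]
  conv_rhs => rw [← Finsupp.sum_single x.coeff]
  rw [Finsupp.sum]
  refine Finset.sum_congr rfl fun s _ => ?_
  rw [MonoidAlgebra.mapRingHom_single, MonoidAlgebra.coeff_single]
  rfl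

private theorem RingClass.pAll {A : Type u} [Ring A] (h : RingClass A) : PAll A := by
  induction h with
  | comm A h => exact fun S Γ _ _ ι hι hΓ => GZ.P_class (Or.inl h) S Γ ι hι hΓ.toGY
  | tower A h => exact fun S Γ _ _ ι hι hΓ => GZ.P_class (Or.inr (Or.inl h)) S Γ ι hι hΓ.toGY
  | almost A h => exact fun S Γ _ _ ι hι hΓ => GZ.P_class (Or.inr (Or.inr h)) S Γ ι hι hΓ.toGY
  | alg A S Γ ι hι hΓ _ ih => exact ih.alg ι hι hΓ
  | mat A m _ ih => exact ih.mat m
  | prod A B _ _ ih ih' => exact ih.prod ih'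
  | sqz A B f hf _ ih => exact ih.sqz f hf
  | union A J B hdir htop _ ih => exact PAll.union B hdir htop ih

/-- **Matrix groups over the rings in the class `RingClass`.** -/
theorem RingClass.P {A : Type u} [Ring A] (h : RingClass A) : P.{u, u} A :=
  P.of_injective (MonoidAlgebra.singleOneRingHom : A →+* MonoidAlgebra A PUnit.{u + 1})
    (fun _ _ hxy => MonoidAlgebra.single_right_injective (M := PUnit.{u + 1}) hxy)
    (h.pAll PUnit.{u + 1} PUnit.{u + 1} (MonoidHom.id _) Function.injective_id
      (GrClass.solv _ (SolvTF.triv _ fun _ => rfl)))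

end Pool.Agent.H66.GX5
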