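import Pool.Agent.H66.GX5.ClsDefs
import Pool.Agent.H36.GZ.Defs

/-!
# The class of rings of `GroupRingMatrices`. Definition
-/

set_option autoImplicit false

namespace Pool.Agent.H66.GX5

open Pool.Agent.H36.OX Pool.Agent.H36.GZ

universe u

/-- The smallest class of rings which contains the commutative rings, the rings in `OreTower`, the
almost commutative domains (`AlmostComm`), and is closed under
(alg) monoid algebras `A[S]` of monoids `S` which embed in groups in `GrClass`, (mat) matrix rings,
(prod) products of two rings, (sqz) rings `A` with a homomorphism to a ring of the class such that the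
square of the kernel is zero (for example subrings), (union) directed unions. -/
inductive RingClass : (A : Type u) → [Ring A] → Prop
  | comm (A : Type u) [Ring A] (h : ∀ x y : A, x * y = y * x) : RingClass A
  | tower (A : Type u) [Ring A] (h : OreTower A) : RingClass A
  | almost (A : Type u) [Ring A] (h : AlmostComm A) : RingClass A
  | alg (A S Γ : Type u) [Ring A] [Monoid S] [Group Γ] (ι : S →* Γ) (hι : Function.Injective ι)
      (hΓ : GrClass Γ) (h : RingClass A) : RingClass (MonoidAlgebra A S)
  | mat (A : Type u) [Ring A] (m : ℕ) (h : RingClass A) : RingClass (Matrix (Fin m) (Fin m) A)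
  | prod (A B : Type u) [Ring A] [Ring B] (h : RingClass A) (h' : RingClass B) : RingClass (A × B)
  | sqz (A B : Type u) [Ring A] [Ring B] (f : A →+* B) (hf : ∀ x y, f x = 0 → f y = 0 → x * y = 0)
      (h : RingClass B) : RingClass A
  | union (A : Type u) [Ring A] (J : Type u) [Nonempty J] (B : J → Subring A)
      (hdir : Directed (· ≤ ·) B) (htop : ∀ x, ∃ j, x ∈ B j) (h : ∀ j, RingClass (B j)) : RingClass A

end Pool.Agent.H66.GX5
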